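import Pool.Agent.Run7.h737.BA.Seq

/-!
# The badly approximable number attached to the sign sequence

`α = [0; 4 s 0, 4 s 1, …]` (a continued fraction with partial quotients `± 4`).
-/

set_option autoImplicit false

namespace Run7.h737.BA

open Filter Topology

/-- the partial quotients -/
def a (n : ℕ) : ℤ := 4 * s n

lemma abs_a (n : ℕ) : |a n| = 4 := by
  unfold a
  rcases s_sq n with h | h <;> rw [h] <;> norm_num

/-- denominators -/
def Q : ℕ → ℤ
  | 0 => 0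
  | 1 => 1
  | n + 2 => a n * Q (n + 1) + Q n

/-- numerators -/
def P : ℕ → ℤ
  | 0 => 1
  | 1 => 0
  | n + 2 => a n * P (n + 1) + P n

lemma Q_rec (n : ℕ) : Q (n + 2) = a n * Q (n + 1) + Q n := rfl
lemma P_rec (n : ℕ) : P (n + 2) = a n * P (n + 1) + P n := rfl

lemma det (n : ℕ) : P n * Q (n + 1) - P (n + 1) * Q n = (-1) ^ n := by
  induction n with
  | zero => simp [P, Q]
  | succ n ih =>
    rw [P_rec, Q_rec, pow_succ]
    linear_combination -ih

lemma Q_grow' (n : ℕ) : |Q n| ≤ |Q (n + 1)| ∧ 1 ≤ |Q (n + 1)| := by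
  induction n with
  | zero => simp [Q]
  | succ n ih =>
    rw [Q_rec]
    have h1 : |a n * Q (n + 1)| = 4 * |Q (n + 1)| := by rw [abs_mul, abs_a]
    have h2 := abs_sub_abs_le_abs_sub (a n * Q (n + 1)) (-Q n)
    rw [abs_neg, sub_neg_eq_add, h1] at h2
    constructor <;> omega

lemma Q_one (n : ℕ) : 1 ≤ |Q (n + 1)| := (Q_grow' n).2

lemma Q_low (n : ℕ) : 3 * |Q (n + 1)| ≤ |Q (n + 2)| := by
  have h0 := Q_grow' n
  rw [Q_rec]
  have h1 : |a n * Q (n + 1)| = 4 * |Q (n + 1)| := by rw [abs_mul, abs_a]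
  have h2 := abs_sub_abs_le_abs_sub (a n * Q (n + 1)) (-Q n)
  rw [abs_neg, sub_neg_eq_add, h1] at h2
  omega

lemma Q_up (n : ℕ) : |Q (n + 2)| ≤ 5 * |Q (n + 1)| := by
  have h0 := Q_grow' n
  rw [Q_rec]
  have h1 : |a n * Q (n + 1)| = 4 * |Q (n + 1)| := by rw [abs_mul, abs_a]
  have h2 := abs_add_le (a n * Q (n + 1)) (Q n)
  rw [h1] at h2
  omega

lemma Q_pow (n : ℕ) : (3 : ℤ) ^ n ≤ |Q (n + 1)| := by
  induction n with
  | zero => simp [Q]
  | succ n ih =>
    have := Q_low n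
    rw [pow_succ]
    show 3 ^ n * 3 ≤ |Q (n + 2)|
    omega

lemma Q_mono {m n : ℕ} (h : m ≤ n) : |Q m| ≤ |Q n| := by
  induction n, h using Nat.le_induction with
  | base => exact le_rfl
  | succ n _ ih => exact ih.trans (Q_grow' n).1

/-- the folding identity -/
lemma fold (c : ℕ) (h : ∀ k, 1 ≤ k → k ≤ c → a (c + k) = - a (c - k)) :
    ∀ k, k ≤ c + 1 → Q (c + 1 + k) =
      (-1) ^ c * a c * Q (c + 1) * (Q (c + 1) * P (c + 1 - k) - P (c + 1) * Q (c + 1 - k))
        + Q (c + 1 - k) := by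
  have hsq : ((-1 : ℤ) ^ c) * (-1) ^ c = 1 := by rw [← pow_add, ← two_mul, pow_mul]; norm_num
  intro k
  induction k using Nat.strong_induction_on with
  | _ k ih =>
    intro hk
    rcases k with _ | k
    · simp only [add_zero, Nat.sub_zero]; ring
    rcases k with _ | k
    · have hd := det c
      show Q (c + 2) = _
      rw [Q_rec, show c + 1 - (0 + 1) = c by omega]
      linear_combination (-(-1 : ℤ) ^ c * a c * Q (c + 1)) * hd - (a c * Q (c + 1)) * hsq
    · have i1 := ih (k + 1) (by omega) (by omega)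
      have i0 := ih k (by omega) (by omega)
      have e1 : c + 1 - k = (c - (k + 1)) + 2 := by omega
      have e2 : c + 1 - (k + 1) = (c - (k + 1)) + 1 := by omega
      have e3 : c + 1 - (k + 1 + 1) = c - (k + 1) := by omega
      have e4 : c + 1 + (k + 1 + 1) = (c + (k + 1)) + 2 := by omega
      have e5 : c + 1 + (k + 1) = (c + (k + 1)) + 1 := by omega
      have e6 : c + 1 + k = c + (k + 1) := by omega
      rw [e3, e4, Q_rec, h (k + 1) (by omega) (by omega)]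
      rw [e5, e2] at i1
      rw [e6, e1, P_rec, Q_rec (c - (k + 1))] at i0
      rw [i0, i1]
      ring

lemma fold_cen (i : ℕ) (k : ℕ) (hk : k ≤ cen i + 1) : Q (cen i + 1 + k) =
      (-1) ^ cen i * a (cen i) * Q (cen i + 1) *
        (Q (cen i + 1) * P (cen i + 1 - k) - P (cen i + 1) * Q (cen i + 1 - k))
        + Q (cen i + 1 - k) := by
  refine fold (cen i) ?_ k hk
  intro k hk1 hk2
  unfold a
  have := refl i (cen i - k) (by omega)
  rw [show 2 * cen i - (cen i - k) = cen i + k by omega] at this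
  rw [this]
  ring

/-- at twice a centre the denominator is four times a square -/
lemma Q_sq (i : ℕ) : |Q (2 * cen i + 2)| = (2 * |Q (cen i + 1)|) ^ 2 := by
  have h := fold_cen i (cen i + 1) le_rfl
  rw [show cen i + 1 + (cen i + 1) = 2 * cen i + 2 by ring, Nat.sub_self] at h
  rw [h]
  have h0 : P 0 = 1 := rfl
  have h1 : Q 0 = 0 := rfl
  rw [h0, h1, mul_one, mul_zero, sub_zero, add_zero, abs_mul, abs_mul, abs_mul, abs_a, abs_pow,
    abs_neg, abs_one, one_pow]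
  ring

/-- the convergents -/
noncomputable def th (n : ℕ) : ℝ := (P (n + 1) : ℝ) / (Q (n + 1) : ℝ)

lemma absQ_pos (n : ℕ) : (0 : ℝ) < |(Q (n + 1) : ℝ)| := by
  have := Q_one n
  have h : (1 : ℝ) ≤ |(Q (n + 1) : ℝ)| := by exact_mod_cast this
  linarith

lemma Qne (n : ℕ) : (Q (n + 1) : ℝ) ≠ 0 := abs_pos.mp (absQ_pos n)

lemma th_diff (n : ℕ) : |th (n + 1) - th n| = 1 / (|(Q (n + 1) : ℝ)| * |(Q (n + 2) : ℝ)|) := by
  unfold th
  have h := det (n + 1)
  have h1 := Qne n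
  have h2 := Qne (n + 1)
  have h3 : (P (n + 1) : ℝ) * Q (n + 2) - P (n + 2) * Q (n + 1) = (-1) ^ (n + 1) := by
    exact_mod_cast h
  have h2' : (Q (n + 2) : ℝ) ≠ 0 := h2
  have h4 : (P (n + 1 + 1) : ℝ) / Q (n + 1 + 1) - P (n + 1) / Q (n + 1) =
      -((-1) ^ (n + 1)) / (Q (n + 1) * Q (n + 2)) := by
    show (P (n + 2) : ℝ) / Q (n + 2) - P (n + 1) / Q (n + 1) = _
    rw [div_sub_div _ _ h2' h1, ← h3]
    rw [div_eq_div_iff (by positivity) (by positivity)]
    ring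
  rw [h4, abs_div, abs_neg, abs_pow, abs_neg, abs_one, one_pow, abs_mul]

lemma th_close : ∀ (k n : ℕ),
    |th (n + k) - th n| ≤ (9 / 8) / (|(Q (n + 1) : ℝ)| * |(Q (n + 2) : ℝ)|) := by
  intro k
  induction k with
  | zero => intro n; simp only [add_zero, sub_self, abs_zero]; positivity
  | succ k ih =>
    intro n
    have h1 := ih (n + 1)
    have h2 := th_diff n
    have h3 : |th (n + (k + 1)) - th n| ≤ |th (n + 1 + k) - th (n + 1)| + |th (n + 1) - th n| := by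
      rw [show n + (k + 1) = n + 1 + k by ring]
      exact abs_sub_le _ _ _
    refine h3.trans ?_
    rw [h2]
    have q1 := absQ_pos n
    have q2 : (0 : ℝ) < |(Q (n + 2) : ℝ)| := absQ_pos (n + 1)
    have q3 : (0 : ℝ) < |(Q (n + 3) : ℝ)| := absQ_pos (n + 2)
    have g1 : 3 * |(Q (n + 1) : ℝ)| ≤ |(Q (n + 2) : ℝ)| := by exact_mod_cast Q_low n
    have g2 : 3 * |(Q (n + 2) : ℝ)| ≤ |(Q (n + 3) : ℝ)| := by exact_mod_cast Q_low (n + 1)
    have h4 : (9 / 8) / (|(Q (n + 2) : ℝ)| * |(Q (n + 3) : ℝ)|) ≤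
        (1 / 8) / (|(Q (n + 1) : ℝ)| * |(Q (n + 2) : ℝ)|) := by
      rw [div_le_div_iff₀ (by positivity) (by positivity)]
      have : 9 * |(Q (n + 1) : ℝ)| ≤ |(Q (n + 3) : ℝ)| := by linarith
      nlinarith
    have h5 : |th (n + 1 + k) - th (n + 1)| ≤
        (1 / 8) / (|(Q (n + 1) : ℝ)| * |(Q (n + 2) : ℝ)|) := h1.trans h4
    have h6 : (9 / 8 : ℝ) / (|(Q (n + 1) : ℝ)| * |(Q (n + 2) : ℝ)|) =
        (1 / 8) / (|(Q (n + 1) : ℝ)| * |(Q (n + 2) : ℝ)|) +
        1 / (|(Q (n + 1) : ℝ)| * |(Q (n + 2) : ℝ)|) := by ring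
    rw [h6]
    linarith

lemma th_cauchy : CauchySeq th := by
  refine cauchySeq_of_le_geometric (1 / 3) 1 (by norm_num) ?_
  intro n
  rw [dist_comm, Real.dist_eq, th_diff]
  have h1 : (1 : ℝ) ≤ |(Q (n + 2) : ℝ)| := by exact_mod_cast Q_one (n + 1)
  have h2 : (3 : ℝ) ^ n ≤ |(Q (n + 1) : ℝ)| := by exact_mod_cast Q_pow n
  have h3 : (0 : ℝ) < 3 ^ n := by positivity
  rw [one_mul, one_div_pow]
  apply one_div_le_one_div_of_le h3
  nlinarith

/-- the number -/
noncomputable def al : ℝ := (cauchySeq_tendsto_of_complete th_cauchy).choose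

lemma al_lim : Tendsto th atTop (𝓝 al) := (cauchySeq_tendsto_of_complete th_cauchy).choose_spec

lemma al_close (n : ℕ) : |al - th n| ≤ (9 / 8) / (|(Q (n + 1) : ℝ)| * |(Q (n + 2) : ℝ)|) := by
  have h1 : Tendsto (fun k => |th (n + k) - th n|) atTop (𝓝 |al - th n|) := by
    have : Tendsto (fun k => th (n + k)) atTop (𝓝 al) := by
      have h := al_lim.comp (tendsto_add_atTop_nat n)
      refine h.congr (fun k => ?_)
      show th (k + n) = th (n + k)
      rw [add_comm]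
    exact (this.sub_const _).abs
  exact le_of_tendsto' h1 (fun k => th_close k n)

lemma al_far (n : ℕ) : (7 / 8) / (|(Q (n + 1) : ℝ)| * |(Q (n + 2) : ℝ)|) ≤ |al - th n| := by
  have h1 := al_close (n + 1)
  have h2 := th_diff n
  have h3 : |th (n + 1) - th n| ≤ |al - th (n + 1)| + |al - th n| := by
    have := abs_sub_le (th (n + 1)) al (th n)
    rwa [abs_sub_comm (th (n + 1)) al] at this
  have q1 := absQ_pos n
  have q2 : (0 : ℝ) < |(Q (n + 2) : ℝ)| := absQ_pos (n + 1)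
  have q3 : (0 : ℝ) < |(Q (n + 3) : ℝ)| := absQ_pos (n + 2)
  have g1 : 3 * |(Q (n + 1) : ℝ)| ≤ |(Q (n + 2) : ℝ)| := by exact_mod_cast Q_low n
  have g2 : 3 * |(Q (n + 2) : ℝ)| ≤ |(Q (n + 3) : ℝ)| := by exact_mod_cast Q_low (n + 1)
  have h4 : (9 / 8) / (|(Q (n + 2) : ℝ)| * |(Q (n + 3) : ℝ)|) ≤
      (1 / 8) / (|(Q (n + 1) : ℝ)| * |(Q (n + 2) : ℝ)|) := by
    rw [div_le_div_iff₀ (by positivity) (by positivity)]
    have : 9 * |(Q (n + 1) : ℝ)| ≤ |(Q (n + 3) : ℝ)| := by linarith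
    nlinarith
  have h5 : |al - th (n + 1)| ≤ (1 / 8) / (|(Q (n + 1) : ℝ)| * |(Q (n + 2) : ℝ)|) := h1.trans h4
  have h6 : (7 / 8 : ℝ) / (|(Q (n + 1) : ℝ)| * |(Q (n + 2) : ℝ)|) =
      1 / (|(Q (n + 1) : ℝ)| * |(Q (n + 2) : ℝ)|) -
      (1 / 8) / (|(Q (n + 1) : ℝ)| * |(Q (n + 2) : ℝ)|) := by ring
  rw [h6, ← h2]
  linarith

/-- `α` is badly approximable -/
theorem al_bad (b t : ℤ) (ht : 1 ≤ t) : (1 / 8) / (t : ℝ) ^ 2 ≤ |al - (b : ℝ) / t| := by
  classical
  have hex : ∃ n, t ≤ |Q (n + 1)| := by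
    obtain ⟨n, hn⟩ := exists_nat_gt (t.toNat : ℝ)
    refine ⟨n, ?_⟩
    have h1 : t.toNat < n := by exact_mod_cast hn
    have h2 : n < 3 ^ n := Nat.lt_pow_self (by norm_num)
    have h3 : ((3 : ℤ)) ^ n ≤ |Q (n + 1)| := Q_pow n
    have h4 : ((n : ℤ)) < 3 ^ n := by exact_mod_cast h2
    omega
  obtain ⟨n, hn1, hn2⟩ : ∃ n, t ≤ |Q (n + 1)| ∧ |Q (n + 1)| ≤ 5 * t := by
    refine ⟨Nat.find hex, Nat.find_spec hex, ?_⟩
    rcases hj : Nat.find hex with _ | i
    · show |Q 1| ≤ 5 * t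
      have : Q 1 = 1 := rfl
      rw [this, abs_one]
      omega
    · have h1 := Nat.find_min hex (m := i) (by omega)
      have h2 := Q_up i
      push Not at h1
      show |Q (i + 2)| ≤ 5 * t
      omega
  have htR : (1 : ℝ) ≤ t := by exact_mod_cast ht
  have ht0 : (0 : ℝ) < t := by linarith
  have q1 := absQ_pos n
  have q2 : (0 : ℝ) < |(Q (n + 2) : ℝ)| := absQ_pos (n + 1)
  have g1 : 3 * |(Q (n + 1) : ℝ)| ≤ |(Q (n + 2) : ℝ)| := by exact_mod_cast Q_low n
  have g2 : |(Q (n + 2) : ℝ)| ≤ 5 * |(Q (n + 1) : ℝ)| := by exact_mod_cast Q_up n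
  have n1 : (t : ℝ) ≤ |(Q (n + 1) : ℝ)| := by exact_mod_cast hn1
  have n2 : |(Q (n + 1) : ℝ)| ≤ 5 * t := by exact_mod_cast hn2
  by_cases hb : b * Q (n + 1) = P (n + 1) * t
  · -- equal fractions
    have hcop : IsCoprime (Q (n + 1)) (P (n + 1)) := by
      have h := det n
      have hsq : ((-1 : ℤ) ^ n) * (-1) ^ n = 1 := by
        rw [← pow_add, ← two_mul, pow_mul]; norm_num
      exact ⟨(-1) ^ n * P n, -((-1) ^ n * Q n), by linear_combination (-1 : ℤ) ^ n * h + hsq⟩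
    have hdvd : Q (n + 1) ∣ t := by
      apply hcop.dvd_of_dvd_mul_left
      exact ⟨b, by rw [← hb]; ring⟩
    have hle : |Q (n + 1)| ≤ t := by
      have := Int.le_of_dvd (by omega) ((abs_dvd _ _).mpr hdvd)
      exact this
    have hleR : |(Q (n + 1) : ℝ)| ≤ t := by exact_mod_cast hle
    have heq : (b : ℝ) / t = th n := by
      unfold th
      rw [div_eq_div_iff ht0.ne' (Qne n)]
      exact_mod_cast hb
    rw [heq]
    refine le_trans ?_ (al_far n)
    rw [div_le_div_iff₀ (by positivity) (by positivity)]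
    have h1 : |(Q (n + 1) : ℝ)| * |(Q (n + 2) : ℝ)| ≤ t * (5 * t) := by
      apply mul_le_mul hleR (by linarith) (by positivity) (by positivity)
    nlinarith
  · -- different fractions
    have h1 : 1 / (t * |(Q (n + 1) : ℝ)|) ≤ |th n - (b : ℝ) / t| := by
      unfold th
      rw [div_sub_div _ _ (Qne n) ht0.ne', abs_div, abs_mul, abs_of_pos ht0]
      rw [mul_comm (t : ℝ)]
      apply div_le_div_of_nonneg_right _ (by positivity)
      have h2 : (1 : ℤ) ≤ |P (n + 1) * t - Q (n + 1) * b| := by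
        apply Int.one_le_abs
        intro h3
        apply hb
        linarith
      exact_mod_cast h2
    have h2 := al_close n
    have h3 : (9 / 8) / (|(Q (n + 1) : ℝ)| * |(Q (n + 2) : ℝ)|) ≤
        (3 / 8) / (t * |(Q (n + 1) : ℝ)|) := by
      rw [div_le_div_iff₀ (by positivity) (by positivity)]
      have : 3 * (t : ℝ) ≤ |(Q (n + 2) : ℝ)| := by linarith
      nlinarith
    have h4 : |th n - (b : ℝ) / t| ≤ |al - th n| + |al - (b : ℝ) / t| := by
      have := abs_sub_le (th n) al ((b : ℝ) / t)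
      rwa [abs_sub_comm (th n) al] at this
    have h5 : (5 / 8) / (t * |(Q (n + 1) : ℝ)|) ≤ |al - (b : ℝ) / t| := by
      have h6 : (5 / 8 : ℝ) / (t * |(Q (n + 1) : ℝ)|) =
        1 / (t * |(Q (n + 1) : ℝ)|) - (3 / 8) / (t * |(Q (n + 1) : ℝ)|) := by ring
      rw [h6]
      linarith
    refine le_trans ?_ h5
    rw [div_le_div_iff₀ (by positivity) (by positivity)]
    nlinarith

end Run7.h737.BA
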