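import Pool.Agent.Run7.h737.BA.Good

/-!
# Lower bounds for the correlations of `{n² α}` for `Good` numbers
-/

set_option autoImplicit false

namespace Run7.h737.BA

open Filter Topology
open Pool.Agent.Results.MP_ba281e_nt.NoPoissonSubseq (x corr)

lemma x_close (α : ℝ) (v : ℕ) (p : ℤ) (M : ℕ) (ε : ℝ) (hε : ε < 1)
    (hM : (M : ℝ) ^ 2 * |(v : ℝ) ^ 2 * α - p| ≤ ε) (m m' : ℕ) (hm : 1 ≤ m) (hm' : 1 ≤ m')
    (hmM : m ≤ M) (hmM' : m' ≤ M) : |x α (v * m) - x α (v * m')| ≤ ε := by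
  set θ : ℝ := (v : ℝ) ^ 2 * α - p with hθ
  have key : ∀ w : ℕ, 1 ≤ w → w ≤ M →
      (0 ≤ θ → 0 ≤ x α (v * w) ∧ x α (v * w) ≤ ε) ∧
      (θ < 0 → 1 - ε ≤ x α (v * w) ∧ x α (v * w) ≤ 1) := by
    intro w hw hwM
    have hwR : (1 : ℝ) ≤ w := by exact_mod_cast hw
    have hwM' : (w : ℝ) ≤ M := by exact_mod_cast hwM
    have h1 : (w : ℝ) ^ 2 * |θ| ≤ ε := by
      refine le_trans ?_ hM
      gcongr
    have h2 : (((v * w : ℕ) : ℝ)) ^ 2 * α = (w : ℝ) ^ 2 * θ + ((w ^ 2 * p : ℤ) : ℝ) := by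
      push_cast
      rw [hθ]
      ring
    constructor
    · intro h0
      rw [abs_of_nonneg h0] at h1
      have h3 : x α (v * w) = (w : ℝ) ^ 2 * θ := by
        unfold x
        rw [h2, Int.fract_add_intCast]
        exact Int.fract_eq_self.mpr ⟨by positivity, by linarith⟩
      rw [h3]
      exact ⟨by positivity, h1⟩
    · intro h0
      rw [abs_of_neg h0] at h1
      have h4 : 0 < (w : ℝ) ^ 2 * (-θ) := by
        have : 0 < -θ := by linarith
        positivity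
      have h3 : x α (v * w) = 1 - (w : ℝ) ^ 2 * (-θ) := by
        unfold x
        rw [h2, Int.fract_add_intCast, Int.fract_eq_iff]
        refine ⟨by linarith, by linarith, -1, ?_⟩
        push_cast
        ring
      rw [h3]
      constructor <;> linarith
  have k1 := key m hm hmM
  have k2 := key m' hm' hmM'
  rw [abs_le]
  rcases le_or_gt 0 θ with h0 | h0
  · have a1 := k1.1 h0
    have a2 := k2.1 h0
    constructor <;> linarith [a1.1, a1.2, a2.1, a2.2]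
  · have a1 := k1.2 h0
    have a2 := k2.2 h0
    constructor <;> linarith [a1.1, a1.2, a2.1, a2.2]

/-- lower bound for the correlation at `N` from one approximation -/
lemma corr_cluster (α : ℝ) (v : ℕ) (hv0 : 1 ≤ v) (p : ℤ) (B : ℝ) (hB : 1 ≤ B)
    (hp : |(v : ℝ) ^ 2 * α - p| ≤ B / (v : ℝ) ^ 2) (d L N : ℕ) (hN : 2 ≤ N) (δ c : ℝ)
    (hδ1 : δ ≤ 1) (f : (Fin d → ℝ) → ℝ) (hf0 : ∀ y, 0 ≤ f y) (hc : HasCompactSupport f)
    (hfc : ∀ y : Fin d → ℝ, (∀ i, |y i| ≤ δ) → c ≤ f y)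
    (h1 : v * ((d + 1) * L) ≤ N)
    (h2 : (((d + 1) * L : ℕ) : ℝ) ^ 2 * (B * N) ≤ δ * (v : ℝ) ^ 2) :
    c * ((L : ℝ) ^ (d + 1)) / N ≤ corr d N α f := by
  classical
  let T : Finset (Fin (d + 1) → ℕ) := Fintype.piFinset fun i : Fin (d + 1) =>
    (Finset.Icc 1 L).image (fun w => v * ((i : ℕ) * L + w))
  have hcard : T.card = L ^ (d + 1) := by
    rw [Fintype.card_piFinset]
    have : ∀ i : Fin (d + 1),
        ((Finset.Icc 1 L).image (fun w => v * ((i : ℕ) * L + w))).card = L := by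
      intro i
      rw [Finset.card_image_of_injective, Nat.card_Icc]
      · omega
      · intro a b hab
        have := Nat.eq_of_mul_eq_mul_left (show 0 < v by omega) hab
        omega
    rw [Finset.prod_congr rfl (fun i _ => this i)]
    simp
  have hmem : ∀ n ∈ T, ∀ i : Fin (d + 1), ∃ w : ℕ, 1 ≤ w ∧ w ≤ L ∧
      n i = v * ((i : ℕ) * L + w) := by
    intro n hn i
    have := Fintype.mem_piFinset.mp hn i
    rw [Finset.mem_image] at this
    obtain ⟨w, hw, hw2⟩ := this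
    rw [Finset.mem_Icc] at hw
    exact ⟨w, hw.1, hw.2, hw2.symm⟩
  have hbd : ∀ (i : Fin (d + 1)) (w : ℕ), w ≤ L → (i : ℕ) * L + w ≤ (d + 1) * L := by
    intro i w hw
    have hi : (i : ℕ) + 1 ≤ d + 1 := i.isLt
    calc (i : ℕ) * L + w ≤ (i : ℕ) * L + L := by omega
      _ = ((i : ℕ) + 1) * L := by ring
      _ ≤ (d + 1) * L := Nat.mul_le_mul_right _ hi
  have hT : T ⊆ (Fintype.piFinset fun _ : Fin (d + 1) => Finset.Icc 1 N).filter
        (fun n => Function.Injective n) := by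
    intro n hn
    rw [Finset.mem_filter, Fintype.mem_piFinset]
    constructor
    · intro i
      obtain ⟨w, hw1, hw2, hw3⟩ := hmem n hn i
      rw [Finset.mem_Icc, hw3]
      constructor
      · exact Nat.mul_pos (by omega) (by omega)
      · exact (Nat.mul_le_mul_left _ (hbd i w hw2)).trans h1
    · intro i i' hii
      obtain ⟨w, hw1, hw2, hw3⟩ := hmem n hn i
      obtain ⟨w', hw1', hw2', hw3'⟩ := hmem n hn i'
      rw [hw3, hw3'] at hii
      have h4 := Nat.eq_of_mul_eq_mul_left (show 0 < v by omega) hii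
      by_contra hne
      have hne' : (i : ℕ) ≠ (i' : ℕ) := fun h => hne (Fin.ext h)
      rcases Nat.lt_or_gt_of_ne hne' with hlt | hlt
      · have : ((i : ℕ) + 1) * L ≤ (i' : ℕ) * L := Nat.mul_le_mul_right _ hlt
        rw [Nat.add_mul, one_mul] at this
        omega
      · have : ((i' : ℕ) + 1) * L ≤ (i : ℕ) * L := Nat.mul_le_mul_right _ hlt
        rw [Nat.add_mul, one_mul] at this
        omega
  have hNR : (2 : ℝ) ≤ N := by exact_mod_cast hN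
  have hvR : (1 : ℝ) ≤ v := by exact_mod_cast hv0
  have hε : δ / N < 1 := by
    rw [div_lt_one (by linarith)]
    linarith
  have hU : (((d + 1) * L : ℕ) : ℝ) ^ 2 * |(v : ℝ) ^ 2 * α - p| ≤ δ / N := by
    refine (mul_le_mul_of_nonneg_left hp (by positivity)).trans ?_
    rw [mul_div_assoc', div_le_div_iff₀ (by positivity) (by linarith)]
    linarith
  have hcl : ∀ n ∈ T, ∀ i i', |x α (n i) - x α (n i')| ≤ δ / N := by
    intro n hn i i'
    obtain ⟨w, hw1, hw2, hw3⟩ := hmem n hn i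
    obtain ⟨w', hw1', hw2', hw3'⟩ := hmem n hn i'
    rw [hw3, hw3']
    exact x_close α v p ((d + 1) * L) (δ / N) hε hU _ _ (by omega) (by omega) (hbd i w hw2)
      (hbd i' w' hw2')
  have h3 := Pool.Agent.Y471.SQ3.corr_lower d N (by omega) α δ c f hf0 hc hfc T hT hcl
  rw [hcard] at h3
  push_cast at h3
  exact h3

/-- a small box on which `f ≥ f(0)/2` -/
lemma box (d : ℕ) (f : (Fin d → ℝ) → ℝ) (hf : Continuous f) (h0 : 0 < f 0) :
    ∃ δ : ℝ, 0 < δ ∧ δ ≤ 1 ∧ ∀ y : Fin d → ℝ, (∀ i, |y i| ≤ δ) → f 0 / 2 ≤ f y := by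
  have h1 : ∀ᶠ y in 𝓝 (0 : Fin d → ℝ), f 0 / 2 < f y :=
    hf.continuousAt.eventually (lt_mem_nhds (by linarith))
  obtain ⟨ε, hε, h2⟩ := Metric.eventually_nhds_iff.mp h1
  refine ⟨min (ε / 2) 1, by positivity, min_le_right _ _, ?_⟩
  intro y hy
  refine (h2 ?_).le
  rw [dist_zero_right]
  have h3 : ‖y‖ ≤ min (ε / 2) 1 :=
    (pi_norm_le_iff_of_nonneg (by positivity)).mpr (fun i => by simpa using hy i)
  have h4 := min_le_left (ε / 2) 1
  linarith

/-- the lower bound through all `N` -/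
lemma growth (α : ℝ) (h : Good α) (d : ℕ) (f : (Fin d → ℝ) → ℝ) (hf : Continuous f)
    (hc : HasCompactSupport f) (hf0 : ∀ y, 0 ≤ f y) (h0 : 0 < f 0) :
    ∃ C : ℝ, 0 < C ∧ ∀ᶠ N : ℕ in atTop,
      C * (N : ℝ) ^ (((d : ℝ) - 21) / 22) ≤ corr d N α f := by
  obtain ⟨v, B, hB, hv1, hv2, hv3, hv4⟩ := h
  obtain ⟨δ, hδ0, hδ1, hδ⟩ := box d f hf h0
  set D : ℝ := (d : ℝ) + 1 with hD
  have hD1 : 1 ≤ D := by rw [hD]; have : (0 : ℝ) ≤ d := by positivity
                         linarith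
  set κ : ℝ := δ / (B ^ 2 * D) with hκ
  have hκ0 : 0 < κ := by positivity
  have hDκ : D * κ = δ / B ^ 2 := by
    rw [hκ]
    field_simp
  have hDκ1 : D * κ ≤ 1 := by
    rw [hDκ, div_le_one (by positivity)]
    nlinarith
  refine ⟨f 0 / 2 * (κ / 2) ^ (d + 1), by positivity, ?_⟩
  have hev : ∀ᶠ N : ℕ in atTop, 1 ≤ κ * (N : ℝ) ^ ((1 : ℝ) / 22) :=
    (((tendsto_rpow_atTop (by norm_num)).comp tendsto_natCast_atTop_atTop).const_mul_atTop
      hκ0).eventually_ge_atTop 1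
  filter_upwards [hev, eventually_ge_atTop (max 2 (v 0 ^ 22))] with N hN1 hN2'
  have hN2 : 2 ≤ N := (le_max_left _ _).trans hN2'
  have hN3 : v 0 ^ 22 ≤ N := (le_max_right _ _).trans hN2'
  have hNR : (2 : ℝ) ≤ N := by exact_mod_cast hN2
  have hN0 : (0 : ℝ) < N := by linarith
  set y : ℝ := (N : ℝ) ^ ((1 : ℝ) / 22) with hy
  have hy0 : 0 < y := by positivity
  have hyN : y ^ 22 = N := by
    rw [hy, ← Real.rpow_natCast, ← Real.rpow_mul hN0.le]
    norm_num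
  -- choice of `i`
  classical
  have hex : ∃ i, N ^ 21 < v (i + 1) ^ 22 := by
    refine ⟨N ^ 21, ?_⟩
    have h1 := hv2 (N ^ 21 + 1)
    have h2 : v (N ^ 21 + 1) ≤ v (N ^ 21 + 1) ^ 22 := Nat.le_self_pow (by norm_num) _
    omega
  obtain ⟨i, hi1, hi2⟩ : ∃ i, v i ^ 22 ≤ N ^ 21 ∧ N ^ 21 < v (i + 1) ^ 22 := by
    refine ⟨Nat.find hex, ?_, Nat.find_spec hex⟩
    rcases hj : Nat.find hex with _ | i
    · exact hN3.trans (Nat.le_self_pow (by norm_num) _)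
    · have := Nat.find_min hex (m := i) (by omega)
      push Not at this
      exact this
  have hvi : (1 : ℝ) ≤ v i := by exact_mod_cast hv1 i
  have hvi' : (1 : ℝ) ≤ v (i + 1) := by exact_mod_cast hv1 (i + 1)
  have e1 : (v i : ℝ) ≤ y ^ 21 := by
    rw [← pow_le_pow_iff_left₀ (by positivity) (by positivity) (show 22 ≠ 0 by norm_num)]
    calc (v i : ℝ) ^ 22 ≤ (N : ℝ) ^ 21 := by exact_mod_cast hi1
      _ = (y ^ 21) ^ 22 := by rw [← hyN]; ring
  have e2 : y ^ 21 ≤ (v (i + 1) : ℝ) := by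
    rw [← pow_le_pow_iff_left₀ (by positivity) (by positivity) (show 22 ≠ 0 by norm_num)]
    calc (y ^ 21) ^ 22 = (N : ℝ) ^ 21 := by rw [← hyN]; ring
      _ ≤ (v (i + 1) : ℝ) ^ 22 := by exact_mod_cast hi2.le
  have e3 : y ^ 12 ≤ B * (v i : ℝ) := by
    rw [← pow_le_pow_iff_left₀ (by positivity) (by positivity) (show 7 ≠ 0 by norm_num)]
    have h3 := hv3 i
    calc (y ^ 12) ^ 7 = (y ^ 21) ^ 4 := by ring
      _ ≤ (v (i + 1) : ℝ) ^ 4 := by gcongr
      _ ≤ B * (v i : ℝ) ^ 7 := h3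
      _ ≤ B ^ 7 * (v i : ℝ) ^ 7 := by
          apply mul_le_mul_of_nonneg_right _ (by positivity)
          exact le_self_pow₀ hB (by norm_num)
      _ = (B * (v i : ℝ)) ^ 7 := by ring
  set L : ℕ := ⌊κ * y⌋₊ with hL
  have hL1 : (L : ℝ) ≤ κ * y := Nat.floor_le (by positivity)
  have hL2 : κ * y / 2 ≤ L := by
    have h1 : κ * y < L + 1 := Nat.lt_floor_add_one _
    have h2 : 1 ≤ L := Nat.one_le_floor_iff _ |>.mpr hN1
    have h3 : (1 : ℝ) ≤ L := by exact_mod_cast h2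
    linarith
  have hcast : ((((d + 1) * L : ℕ)) : ℝ) = D * L := by rw [hD]; push_cast; ring
  obtain ⟨p, hp⟩ := hv4 i
  have hmain := corr_cluster α (v i) (hv1 i) p B hB hp d L N hN2 δ (f 0 / 2) hδ1 f hf0 hc hδ
    (by
      have h1 : (v i : ℝ) * (D * L) ≤ N := by
        calc (v i : ℝ) * (D * L) ≤ y ^ 21 * (D * (κ * y)) := by gcongr
          _ = (D * κ) * y ^ 22 := by ring
          _ ≤ 1 * y ^ 22 := by gcongr
          _ = N := by rw [one_mul, hyN]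
      rw [← hcast] at h1
      exact_mod_cast h1)
    (by
      rw [hcast]
      calc (D * (L : ℝ)) ^ 2 * (B * N) ≤ (D * (κ * y)) ^ 2 * (B * N) := by gcongr
        _ = (D * κ) ^ 2 * B * y ^ 24 := by rw [← hyN]; ring
        _ = δ ^ 2 / B ^ 3 * (y ^ 12) ^ 2 := by rw [hDκ]; field_simp
        _ ≤ δ ^ 2 / B ^ 3 * (B * (v i : ℝ)) ^ 2 := by gcongr
        _ = δ ^ 2 / B * (v i : ℝ) ^ 2 := by field_simp
        _ ≤ δ * (v i : ℝ) ^ 2 := by
            apply mul_le_mul_of_nonneg_right _ (by positivity)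
            rw [div_le_iff₀ (by positivity)]
            nlinarith)
  refine le_trans ?_ hmain
  have hpow : (N : ℝ) ^ (((d : ℝ) - 21) / 22) = y ^ (d + 1) / N := by
    rw [show ((d : ℝ) - 21) / 22 = (1 / 22) * ((d : ℝ) + 1) - 1 by ring, Real.rpow_sub hN0,
      Real.rpow_one, Real.rpow_mul hN0.le, ← hy]
    congr 1
    rw [← Real.rpow_natCast]
    push_cast
    rfl
  rw [hpow]
  have h1 : (κ * y / 2) ^ (d + 1) ≤ (L : ℝ) ^ (d + 1) := pow_le_pow_left₀ (by positivity) hL2 _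
  have h2 : f 0 / 2 * (κ / 2) ^ (d + 1) * (y ^ (d + 1) / N) =
      f 0 / 2 * (κ * y / 2) ^ (d + 1) / N := by
    rw [show κ * y / 2 = κ / 2 * y by ring, mul_pow]
    ring
  rw [h2]
  gcongr

/-- the special sequence `N_j = ⌈v_j^(4/3)⌉` -/
noncomputable def Ns (v : ℕ → ℕ) (j : ℕ) : ℕ := ⌈((v j : ℝ) ^ ((1 : ℝ) / 3)) ^ 4⌉₊

/-- the lower bound along the special sequence -/
lemma sparse (α : ℝ) (v : ℕ → ℕ) (B : ℝ) (hB : 1 ≤ B) (hv1 : ∀ i, 1 ≤ v i) (hv2 : ∀ i, i ≤ v i)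
    (hv4 : ∀ i, ∃ p : ℤ, |(v i : ℝ) ^ 2 * α - p| ≤ B / (v i : ℝ) ^ 2)
    (d : ℕ) (f : (Fin d → ℝ) → ℝ) (hc : HasCompactSupport f) (hf0 : ∀ y, 0 ≤ f y)
    (δ c κ : ℝ) (hδ1 : δ ≤ 1) (hc0 : 0 ≤ c)
    (hfc : ∀ y : Fin d → ℝ, (∀ i, |y i| ≤ δ) → c ≤ f y) (hκ0 : 0 < κ)
    (hκ1 : ((d : ℝ) + 1) * κ ≤ 1) (hκ2 : (((d : ℝ) + 1) * κ) ^ 2 * (2 * B) ≤ δ) :
    ∀ᶠ j : ℕ in atTop,
      c * (κ / 2) ^ (d + 1) / 2 * (((v j : ℝ) ^ ((1 : ℝ) / 3)) ^ (d + 1) /
        ((v j : ℝ) ^ ((1 : ℝ) / 3)) ^ 4) ≤ corr d (Ns v j) α f := by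
  have hvt : Tendsto (fun j => (v j : ℝ) ^ ((1 : ℝ) / 3)) atTop atTop := by
    refine (tendsto_rpow_atTop (by norm_num)).comp ?_
    refine tendsto_atTop_mono (fun j => ?_) tendsto_natCast_atTop_atTop
    exact_mod_cast hv2 j
  filter_upwards [(hvt.const_mul_atTop hκ0).eventually_ge_atTop 1, hvt.eventually_ge_atTop 2]
    with j hj1 hj2
  set y : ℝ := (v j : ℝ) ^ ((1 : ℝ) / 3) with hy
  have hy0 : 0 < y := by linarith
  have hvj : (1 : ℝ) ≤ v j := by exact_mod_cast hv1 j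
  have hyv : y ^ 3 = v j := by
    rw [hy, ← Real.rpow_natCast, ← Real.rpow_mul (by linarith)]
    norm_num
  set N : ℕ := Ns v j with hN
  have hN1 : y ^ 4 ≤ N := Nat.le_ceil _
  have hN2 : (N : ℝ) ≤ 2 * y ^ 4 := by
    have h1 : (N : ℝ) < y ^ 4 + 1 := Nat.ceil_lt_add_one (by positivity)
    have h2 : (1 : ℝ) ≤ y ^ 4 := one_le_pow₀ (by linarith)
    linarith
  have hN3 : 2 ≤ N := by
    have h1 : (2 : ℝ) ^ 4 ≤ y ^ 4 := pow_le_pow_left₀ (by norm_num) hj2 4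
    have h2 : (2 : ℝ) ≤ N := by linarith
    exact_mod_cast h2
  have hN0 : (0 : ℝ) < N := by have : (2 : ℝ) ≤ N := by exact_mod_cast hN3
                               linarith
  set D : ℝ := (d : ℝ) + 1 with hD
  have hD1 : 1 ≤ D := by rw [hD]; have : (0 : ℝ) ≤ d := by positivity
                         linarith
  set L : ℕ := ⌊κ * y⌋₊ with hL
  have hL1 : (L : ℝ) ≤ κ * y := Nat.floor_le (by positivity)
  have hL2 : κ * y / 2 ≤ L := by
    have h1 : κ * y < L + 1 := Nat.lt_floor_add_one _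
    have h2 : 1 ≤ L := Nat.one_le_floor_iff _ |>.mpr hj1
    have h3 : (1 : ℝ) ≤ L := by exact_mod_cast h2
    linarith
  have hcast : ((((d + 1) * L : ℕ)) : ℝ) = D * L := by rw [hD]; push_cast; ring
  obtain ⟨p, hp⟩ := hv4 j
  have hmain := corr_cluster α (v j) (hv1 j) p B hB hp d L N hN3 δ c hδ1 f hf0 hc hfc
    (by
      have h1 : (v j : ℝ) * (D * L) ≤ N := by
        calc (v j : ℝ) * (D * L) ≤ y ^ 3 * (D * (κ * y)) := by rw [hyv]; gcongr
          _ = (D * κ) * y ^ 4 := by ring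
          _ ≤ 1 * y ^ 4 := by gcongr
          _ ≤ N := by rw [one_mul]; exact hN1
      rw [← hcast] at h1
      exact_mod_cast h1)
    (by
      rw [hcast]
      calc (D * (L : ℝ)) ^ 2 * (B * N) ≤ (D * (κ * y)) ^ 2 * (B * (2 * y ^ 4)) := by gcongr
        _ = ((D * κ) ^ 2 * (2 * B)) * (y ^ 3) ^ 2 := by ring
        _ ≤ δ * (y ^ 3) ^ 2 := by gcongr
        _ = δ * (v j : ℝ) ^ 2 := by rw [hyv])
  refine le_trans ?_ hmain
  have h1 : (κ * y / 2) ^ (d + 1) ≤ (L : ℝ) ^ (d + 1) := pow_le_pow_left₀ (by positivity) hL2 _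
  calc c * (κ / 2) ^ (d + 1) / 2 * (y ^ (d + 1) / y ^ 4)
      = c * (κ * y / 2) ^ (d + 1) / (2 * y ^ 4) := by
        rw [show κ * y / 2 = κ / 2 * y by ring, mul_pow]
        field_simp
    _ ≤ c * (L : ℝ) ^ (d + 1) / (2 * y ^ 4) := by gcongr
    _ ≤ c * (L : ℝ) ^ (d + 1) / N := by gcongr

end Run7.h737.BA
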