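import Pool.Agent.Run7.h737.BA.Cf
import Pool.Agent.Y471.SQ3.Cluster

/-!
# Numbers with square denominators at all scales, and their correlations
-/

set_option autoImplicit false

namespace Run7.h737.BA

open Filter Topology
open Pool.Agent.Results.MP_ba281e_nt.NoPoissonSubseq (x corr)

/-- a sequence of good approximations with square denominators `v i ^ 2` and
`v (i+1) ≤ B v i ^ (7/4)` -/
def Good (α : ℝ) : Prop :=
  ∃ (v : ℕ → ℕ) (B : ℝ), 1 ≤ B ∧ (∀ i, 1 ≤ v i) ∧ (∀ i, i ≤ v i) ∧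
    (∀ i, (v (i + 1) : ℝ) ^ 4 ≤ B * (v i : ℝ) ^ 7) ∧
    ∀ i, ∃ p : ℤ, |(v i : ℝ) ^ 2 * α - p| ≤ B / (v i : ℝ) ^ 2

/-- `u i = |Q (cen i + 1)|` -/
noncomputable def u (i : ℕ) : ℝ := |(Q (cen i + 1) : ℝ)|

lemma u_one (i : ℕ) : 1 ≤ u i := by
  unfold u
  exact_mod_cast Q_one (cen i)

lemma u_mono {i j : ℕ} (h : i ≤ j) : u i ≤ u j := by
  unfold u
  have := Q_mono (show cen i + 1 ≤ cen j + 1 by have := cen_mono.monotone h; omega)
  exact_mod_cast this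

lemma u_sq (i : ℕ) : u (i + 2) ≤ 4 * u (i + 1) ^ 2 := by
  have h1 : cen (i + 2) = cen (i + 1) + cen i + 2 := rfl
  have h2 := cen_lt i
  have h3 := Q_mono (show cen (i + 2) + 1 ≤ 2 * cen (i + 1) + 2 by omega)
  rw [Q_sq (i + 1)] at h3
  have h4 : |(Q (cen (i + 2) + 1) : ℝ)| ≤ (2 * |(Q (cen (i + 1) + 1) : ℝ)|) ^ 2 := by
    exact_mod_cast h3
  unfold u
  nlinarith

lemma u_sq0 : u 1 ≤ 4 * u 0 ^ 2 := by
  have h3 := Q_mono (show cen 1 + 1 ≤ 2 * cen 0 + 2 by decide)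
  rw [Q_sq 0] at h3
  have h4 : |(Q (cen 1 + 1) : ℝ)| ≤ (2 * |(Q (cen 0 + 1) : ℝ)|) ^ 2 := by
    exact_mod_cast h3
  unfold u
  nlinarith

lemma u_sq' (i : ℕ) : u (i + 1) ≤ 4 * u i ^ 2 := by
  rcases i with _ | i
  · exact u_sq0
  · exact u_sq i

lemma u_four (i : ℕ) : u (i + 2) ≤ 64 * u i ^ 4 := by
  have h1 := u_sq' (i + 1)
  have h2 := u_sq' i
  have h3 := u_one i
  have h4 := u_one (i + 1)
  have h5 : u (i + 1) ^ 2 ≤ (4 * u i ^ 2) ^ 2 := pow_le_pow_left₀ (by linarith) h2 2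
  calc u (i + 2) ≤ 4 * u (i + 1) ^ 2 := h1
    _ ≤ 4 * (4 * u i ^ 2) ^ 2 := by linarith
    _ = 64 * u i ^ 4 := by ring

lemma u_prod (i : ℕ) : u (i + 3) * u i ≤ 5 / 2 * u (i + 2) ^ 2 := by
  have r := cen_rec i
  have e : cen (i + 2) = cen (i + 1) + cen i + 2 := rfl
  have e3 : cen (i + 3) = cen (i + 2) + cen (i + 1) + 2 := rfl
  have h := fold_cen (i + 2) (cen (i + 3) - cen (i + 2)) (by omega)
  rw [show cen (i + 2) + 1 + (cen (i + 3) - cen (i + 2)) = cen (i + 3) + 1 by omega,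
    show cen (i + 2) + 1 - (cen (i + 3) - cen (i + 2)) = cen i + 1 by omega] at h
  set c := cen (i + 2) with hc
  -- the determinant
  have hD : |(Q (c + 1) * P (cen i + 1) - P (c + 1) * Q (cen i + 1) : ℝ)| * u i
      ≤ 3 / 8 * u (i + 2) := by
    have h1 := th_close (c - cen i) (cen i)
    rw [show cen i + (c - cen i) = c by omega] at h1
    have q1 := absQ_pos (cen i)
    have q2 : (0 : ℝ) < |(Q (cen i + 2) : ℝ)| := absQ_pos (cen i + 1)
    have q3 := absQ_pos c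
    have g1 : 3 * |(Q (cen i + 1) : ℝ)| ≤ |(Q (cen i + 2) : ℝ)| := by
      exact_mod_cast Q_low (cen i)
    have h2 : (Q (c + 1) * P (cen i + 1) - P (c + 1) * Q (cen i + 1) : ℝ) =
        -((th c - th (cen i)) * (Q (c + 1) * Q (cen i + 1))) := by
      unfold th
      have n1 := Qne c
      have n2 := Qne (cen i)
      field_simp
      ring
    rw [h2, abs_neg, abs_mul, abs_mul]
    have h3 : |th c - th (cen i)| * (|(Q (c + 1) : ℝ)| * |(Q (cen i + 1) : ℝ)|) * u i ≤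
        (9 / 8) / (|(Q (cen i + 1) : ℝ)| * |(Q (cen i + 2) : ℝ)|) *
          (|(Q (c + 1) : ℝ)| * |(Q (cen i + 1) : ℝ)|) * u i := by
      have := u_one i
      gcongr
    refine h3.trans ?_
    have h4 : (9 / 8) / (|(Q (cen i + 1) : ℝ)| * |(Q (cen i + 2) : ℝ)|) *
          (|(Q (c + 1) : ℝ)| * |(Q (cen i + 1) : ℝ)|) * u i =
        (9 / 8) * |(Q (c + 1) : ℝ)| * u i / |(Q (cen i + 2) : ℝ)| := by
      field_simp
    rw [h4, div_le_iff₀ q2]
    have h5 : u i = |(Q (cen i + 1) : ℝ)| := rfl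
    have h6 : u (i + 2) = |(Q (c + 1) : ℝ)| := rfl
    rw [h5, h6]
    nlinarith
  have hR : (Q (cen (i + 3) + 1) : ℝ) =
      (-1) ^ c * a c * Q (c + 1) * (Q (c + 1) * P (cen i + 1) - P (c + 1) * Q (cen i + 1))
        + Q (cen i + 1) := by exact_mod_cast h
  have h7 : u (i + 3) ≤ 4 * u (i + 2) *
      |(Q (c + 1) * P (cen i + 1) - P (c + 1) * Q (cen i + 1) : ℝ)| + u i := by
    have h8 : u (i + 3) = |(Q (cen (i + 3) + 1) : ℝ)| := rfl
    rw [h8, hR]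
    refine (abs_add_le _ _).trans (le_of_eq ?_)
    have h9 : |(a c : ℝ)| = 4 := by exact_mod_cast abs_a c
    rw [abs_mul, abs_mul, abs_mul, h9, abs_pow, abs_neg, abs_one, one_pow, one_mul]
    rfl
  have h10 := u_one i
  have h11 : u i ≤ u (i + 2) := u_mono (by omega)
  have h12 := u_one (i + 2)
  calc u (i + 3) * u i ≤ (4 * u (i + 2) *
      |(Q (c + 1) * P (cen i + 1) - P (c + 1) * Q (cen i + 1) : ℝ)| + u i) * u i := by gcongr
    _ = 4 * u (i + 2) * (|(Q (c + 1) * P (cen i + 1) - P (c + 1) * Q (cen i + 1) : ℝ)| * u i)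
        + u i ^ 2 := by ring
    _ ≤ 4 * u (i + 2) * (3 / 8 * u (i + 2)) + u (i + 2) ^ 2 := by gcongr
    _ = 5 / 2 * u (i + 2) ^ 2 := by ring

lemma u_seven (i : ℕ) : u (i + 3) ^ 4 ≤ 2500 * u (i + 2) ^ 7 := by
  have h1 := u_prod i
  have h2 := u_four i
  have h3 := u_one i
  have h4 := u_one (i + 2)
  have h5 := u_one (i + 3)
  have h6 : (u (i + 3) * u i) ^ 4 ≤ (5 / 2 * u (i + 2) ^ 2) ^ 4 :=
    pow_le_pow_left₀ (by positivity) h1 4
  have h7 : u (i + 3) ^ 4 * u (i + 2) ≤ u (i + 3) ^ 4 * (64 * u i ^ 4) := by gcongr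
  have h8 : u (i + 3) ^ 4 * u (i + 2) ≤ 2500 * u (i + 2) ^ 7 * u (i + 2) := by
    calc u (i + 3) ^ 4 * u (i + 2) ≤ u (i + 3) ^ 4 * (64 * u i ^ 4) := h7
      _ = 64 * (u (i + 3) * u i) ^ 4 := by ring
      _ ≤ 64 * (5 / 2 * u (i + 2) ^ 2) ^ 4 := by linarith
      _ = 2500 * u (i + 2) ^ 7 * u (i + 2) := by ring
  exact le_of_mul_le_mul_right h8 (by linarith)

lemma al_good : Good al := by
  refine ⟨fun i => 2 * (Q (cen (i + 2) + 1)).natAbs, 1250, by norm_num, ?_, ?_, ?_, ?_⟩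
  · intro i
    have := Q_one (cen (i + 2))
    rw [Int.abs_eq_natAbs] at this
    show 1 ≤ 2 * (Q (cen (i + 2) + 1)).natAbs
    omega
  · intro i
    have h1 := Q_pow (cen (i + 2))
    have h2 : cen (i + 2) < 3 ^ cen (i + 2) := Nat.lt_pow_self (by norm_num)
    have h3 := le_cen (i + 2)
    have h4 : ((cen (i + 2) : ℤ)) < (3 : ℤ) ^ cen (i + 2) := by exact_mod_cast h2
    rw [Int.abs_eq_natAbs] at h1
    show i ≤ 2 * (Q (cen (i + 2) + 1)).natAbs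
    have h5 := h4.trans_le h1
    omega
  · intro i
    have h1 := u_seven i
    have h2 : ∀ j, (((2 * (Q (cen j + 1)).natAbs : ℕ)) : ℝ) = 2 * u j := by
      intro j
      unfold u
      push_cast
      rw [Nat.cast_natAbs]
      push_cast
      rfl
    show (((2 * (Q (cen (i + 3) + 1)).natAbs : ℕ)) : ℝ) ^ 4 ≤
      1250 * (((2 * (Q (cen (i + 2) + 1)).natAbs : ℕ)) : ℝ) ^ 7
    rw [h2, h2]
    have h3 := u_one (i + 2)
    have h4 : 0 ≤ u (i + 2) ^ 7 := by positivity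
    calc (2 * u (i + 3)) ^ 4 = 16 * u (i + 3) ^ 4 := by ring
      _ ≤ 16 * (2500 * u (i + 2) ^ 7) := by linarith
      _ ≤ 1250 * (2 * u (i + 2)) ^ 7 := by
          have : 1250 * (2 * u (i + 2)) ^ 7 = 160000 * u (i + 2) ^ 7 := by ring
          rw [this]
          linarith
  · intro i
    show ∃ p : ℤ, |(((2 * (Q (cen (i + 2) + 1)).natAbs : ℕ)) : ℝ) ^ 2 * al - p| ≤
      1250 / (((2 * (Q (cen (i + 2) + 1)).natAbs : ℕ)) : ℝ) ^ 2
    set j := i + 2 with hj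
    set V : ℝ := (((2 * (Q (cen j + 1)).natAbs : ℕ)) : ℝ) with hV
    have hsq : |(Q (2 * cen j + 2) : ℝ)| = V ^ 2 := by
      have h1 := Q_sq j
      have h2 : |(Q (2 * cen j + 2) : ℝ)| = (2 * |(Q (cen j + 1) : ℝ)|) ^ 2 := by
        exact_mod_cast h1
      rw [h2, hV]
      push_cast
      rw [Nat.cast_natAbs]
      push_cast
      ring
    have hclose := al_close (2 * cen j + 1)
    have q1 := absQ_pos (2 * cen j + 1)
    have q2 : (1 : ℝ) ≤ |(Q (2 * cen j + 3) : ℝ)| := by exact_mod_cast Q_one (2 * cen j + 2)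
    have g1 : 3 * |(Q (2 * cen j + 2) : ℝ)| ≤ |(Q (2 * cen j + 3) : ℝ)| := by
      exact_mod_cast Q_low (2 * cen j + 1)
    have hq1 : (0 : ℝ) < |(Q (2 * cen j + 2) : ℝ)| := q1
    -- `|Q al - P| ≤ 1 / |Q|`
    have h5 : |(Q (2 * cen j + 2) : ℝ) * al - P (2 * cen j + 2)| ≤ 1 / V ^ 2 := by
      have h6 : (Q (2 * cen j + 2) : ℝ) * al - P (2 * cen j + 2) =
          Q (2 * cen j + 2) * (al - th (2 * cen j + 1)) := by
        unfold th
        have := Qne (2 * cen j + 1)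
        show _ = (Q (2 * cen j + 2) : ℝ) * (al - (P (2 * cen j + 2) : ℝ) / Q (2 * cen j + 2))
        have h7 : (Q (2 * cen j + 2) : ℝ) ≠ 0 := this
        field_simp
      rw [h6, abs_mul, ← hsq]
      have h8 : |(Q (2 * cen j + 2) : ℝ)| * |al - th (2 * cen j + 1)| ≤
          |(Q (2 * cen j + 2) : ℝ)| * ((9 / 8) / (|(Q (2 * cen j + 2) : ℝ)| *
            |(Q (2 * cen j + 3) : ℝ)|)) := mul_le_mul_of_nonneg_left hclose hq1.le
      refine h8.trans ?_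
      have h9 : |(Q (2 * cen j + 2) : ℝ)| * ((9 / 8) / (|(Q (2 * cen j + 2) : ℝ)| *
            |(Q (2 * cen j + 3) : ℝ)|)) = (9 / 8) / |(Q (2 * cen j + 3) : ℝ)| := by
        field_simp
      rw [h9, div_le_div_iff₀ (by positivity) hq1]
      linarith
    have hV0 : 0 < V ^ 2 := by rw [← hsq]; exact hq1
    have h10 : (1 : ℝ) / V ^ 2 ≤ 1250 / V ^ 2 := by gcongr; norm_num
    rcases abs_choice (Q (2 * cen j + 2) : ℝ) with hs | hs
    · have hv : V ^ 2 = Q (2 * cen j + 2) := by rw [← hsq]; exact hs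
      refine ⟨P (2 * cen j + 2), ?_⟩
      have h11 : V ^ 2 * al - (P (2 * cen j + 2) : ℝ) =
          (Q (2 * cen j + 2) : ℝ) * al - P (2 * cen j + 2) := by rw [hv]
      rw [h11]
      exact h5.trans h10
    · have hv : V ^ 2 = - (Q (2 * cen j + 2) : ℝ) := by rw [← hsq]; exact hs
      refine ⟨-P (2 * cen j + 2), ?_⟩
      push_cast
      have h11 : V ^ 2 * al - -(P (2 * cen j + 2) : ℝ) =
          -((Q (2 * cen j + 2) : ℝ) * al - P (2 * cen j + 2)) := by rw [hv]; ring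
      rw [h11, abs_neg]
      exact h5.trans h10

/-- rational translates -/
lemma Good.add_rat {α : ℝ} (h : Good α) (b : ℤ) (t : ℕ) (ht : 1 ≤ t) :
    Good (α + (b : ℝ) / t) := by
  obtain ⟨v, B, hB, h1, h2, h3, h4⟩ := h
  have htR : (1 : ℝ) ≤ t := by exact_mod_cast ht
  have ht4 : (1 : ℝ) ≤ (t : ℝ) ^ 4 := one_le_pow₀ htR
  refine ⟨fun i => t * v i, (t : ℝ) ^ 4 * B, ?_, ?_, ?_, ?_, ?_⟩
  · nlinarith
  · intro i
    have := h1 i
    show 1 ≤ t * v i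
    exact Nat.mul_pos ht this
  · intro i
    have := h2 i
    show i ≤ t * v i
    nlinarith
  · intro i
    have h5 := h3 i
    have h6 : (1 : ℝ) ≤ v i := by exact_mod_cast h1 i
    show (((t * v (i + 1) : ℕ)) : ℝ) ^ 4 ≤ (t : ℝ) ^ 4 * B * (((t * v i : ℕ)) : ℝ) ^ 7
    push_cast
    rw [mul_pow, mul_assoc]
    apply mul_le_mul_of_nonneg_left _ (by positivity)
    refine h5.trans ?_
    apply mul_le_mul_of_nonneg_left _ (by linarith)
    apply pow_le_pow_left₀ (by positivity)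
    nlinarith
  · intro i
    obtain ⟨p, hp⟩ := h4 i
    have h6 : (1 : ℝ) ≤ v i := by exact_mod_cast h1 i
    refine ⟨t ^ 2 * p + t * v i ^ 2 * b, ?_⟩
    show |(((t * v i : ℕ)) : ℝ) ^ 2 * (α + (b : ℝ) / t) - ((t ^ 2 * p + t * v i ^ 2 * b : ℤ) : ℝ)|
      ≤ (t : ℝ) ^ 4 * B / (((t * v i : ℕ)) : ℝ) ^ 2
    push_cast
    have h7 : ((t : ℝ) * v i) ^ 2 * (α + (b : ℝ) / t) - ((t : ℝ) ^ 2 * p + t * (v i : ℝ) ^ 2 * b)
        = (t : ℝ) ^ 2 * ((v i : ℝ) ^ 2 * α - p) := by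
      field_simp
      ring
    rw [h7, abs_mul, abs_of_nonneg (by positivity : (0 : ℝ) ≤ (t : ℝ) ^ 2)]
    calc (t : ℝ) ^ 2 * |(v i : ℝ) ^ 2 * α - p| ≤ (t : ℝ) ^ 2 * (B / (v i : ℝ) ^ 2) := by gcongr
      _ = (t : ℝ) ^ 4 * B / ((t : ℝ) * v i) ^ 2 := by
          field_simp

end Run7.h737.BA
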