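import Mathlib

/-!
# A sign sequence with many folded prefixes

`cen i` are the centres `0, 1, 3, 6, 11, 19, …`; the sign sequence `s` satisfies
`s (2 * cen i - j) = - s j` for all `j < cen i` (`refl`).
-/

set_option autoImplicit false

namespace Run7.h737.BA

/-- the centres -/
def cen : ℕ → ℕ
  | 0 => 0
  | 1 => 1
  | i + 2 => cen (i + 1) + cen i + 2

lemma cen_lt (i : ℕ) : cen i < cen (i + 1) := by
  rcases i with _ | i
  · simp [cen]
  · show cen (i + 1) < cen (i + 1) + cen i + 2
    omega

lemma cen_mono : StrictMono cen := strictMono_nat_of_lt_succ cen_lt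

lemma le_cen (i : ℕ) : i ≤ cen i := cen_mono.le_apply

lemma cen_rec (i : ℕ) : cen (i + 3) + cen i = 2 * cen (i + 2) := by
  show cen (i + 2) + cen (i + 1) + 2 + cen i = 2 * cen (i + 2)
  have : cen (i + 2) = cen (i + 1) + cen i + 2 := rfl
  omega

/-- the index of the last centre below `n` -/
def idx (n : ℕ) : ℕ := Nat.findGreatest (fun i => cen i < n) n

lemma idx_eq {n i : ℕ} (h1 : cen i < n) (h2 : n ≤ cen (i + 1)) : idx n = i := by
  unfold idx
  rw [Nat.findGreatest_eq_iff]
  refine ⟨(le_cen i).trans h1.le, fun _ => h1, ?_⟩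
  intro k hk1 _ hk3
  have := cen_mono.monotone (show i + 1 ≤ k from hk1)
  omega

lemma cen_idx {n : ℕ} (hn : 1 ≤ n) : cen (idx n) < n := by
  have h0 : cen 0 < n := by
    show 0 < n
    omega
  exact Nat.findGreatest_spec (P := fun i => cen i < n) (Nat.zero_le n) h0

/-- the signs -/
def s (n : ℕ) : ℤ :=
  if _h : n ≤ 1 ∨ n = 3 then 1 else - s (2 * cen (idx n) - n)
termination_by n
decreasing_by
  have hn : 1 ≤ n := by omega
  have := cen_idx hn
  omega

lemma s_small {n : ℕ} (h : n ≤ 1 ∨ n = 3) : s n = 1 := by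
  rw [s]; simp [h]

lemma s_big {n : ℕ} (h : ¬ (n ≤ 1 ∨ n = 3)) : s n = - s (2 * cen (idx n) - n) := by
  conv_lhs => rw [s]
  simp only [h, dif_neg, not_false_eq_true]

lemma s_sq (n : ℕ) : s n = 1 ∨ s n = -1 := by
  induction n using Nat.strong_induction_on with
  | _ n ih =>
    by_cases h : n ≤ 1 ∨ n = 3
    · exact Or.inl (s_small h)
    · rw [s_big h]
      have hn : 1 ≤ n := by omega
      have := cen_idx hn
      rcases ih (2 * cen (idx n) - n) (by omega) with h1 | h1
      · right; rw [h1]
      · left; rw [h1]; rfl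

/-- the value at `n` when `cen i < n ≤ cen (i+1)` -/
lemma s_step {n i : ℕ} (hi : i ≠ 0) (h1 : cen i < n) (h2 : n ≤ cen (i + 1)) (h3 : n ≠ 3) :
    s n = - s (2 * cen i - n) := by
  have hi' : 1 ≤ cen i := le_trans (Nat.one_le_iff_ne_zero.mpr hi) (le_cen i)
  have h : ¬ (n ≤ 1 ∨ n = 3) := by omega
  rw [s_big h, idx_eq h1 h2]

theorem refl : ∀ (i j : ℕ), j < cen i → s (2 * cen i - j) = - s j := by
  intro i
  induction i using Nat.strong_induction_on with
  | _ i ih =>
    intro j hj
    rcases i with _ | i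
    · simp [cen] at hj
    rcases i with _ | i
    · -- `i = 1`
      have h0 : cen 1 = 1 := rfl
      rw [zero_add, h0] at hj
      obtain rfl : j = 0 := by omega
      rw [zero_add, h0]
      have := s_step (n := 2) (i := 1) (by omega) (by decide) (by decide) (by omega)
      rw [h0] at this
      exact this
    rcases i with _ | i
    · -- `i = 2`
      have h0 : cen 2 = 3 := rfl
      have h1 : cen 3 = 6 := rfl
      rw [zero_add] at hj ⊢
      change j < cen 2 at hj
      show s (2 * cen 2 - j) = - s j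
      rw [h0] at hj
      rw [s_step (n := 2 * cen 2 - j) (i := 2) (by omega) (by omega) (by rw [h0, h1]; omega)
        (by rw [h0]; omega)]
      congr 2
      omega
    -- `i ≥ 3`
    have r1 : cen (i + 3) + cen i = 2 * cen (i + 2) := cen_rec i
    have r3 : cen (i + 4) + cen (i + 1) = 2 * cen (i + 3) := cen_rec (i + 1)
    have e1 : cen (i + 3) = cen (i + 2) + cen (i + 1) + 2 := rfl
    have e2 : cen (i + 4) = cen (i + 3) + cen (i + 2) + 2 := rfl
    have e2' : cen (i + 3 + 1) = cen (i + 3) + cen (i + 2) + 2 := rfl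
    have e3 : cen (i + 4 + 1) = cen (i + 4) + cen (i + 3) + 2 := rfl
    have e4 : cen (i + 2) = cen (i + 1) + cen i + 2 := rfl
    have l2 := le_cen (i + 2)
    have l3 := le_cen (i + 3)
    change j < cen (i + 3) at hj
    show s (2 * cen (i + 3) - j) = - s j
    by_cases hc : 2 * cen (i + 3) - j ≤ cen (i + 3 + 1)
    · rw [s_step (n := 2 * cen (i + 3) - j) (i := i + 3) (by omega) (by omega) hc (by omega)]
      congr 2
      omega
    · push Not at hc
      rw [s_step (n := 2 * cen (i + 3) - j) (i := i + 4) (by omega) (by omega) (by omega)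
        (by omega)]
      have hy : s (2 * cen (i + 4) - (2 * cen (i + 3) - j)) =
          - s (2 * cen (i + 3) - (2 * cen (i + 4) - (2 * cen (i + 3) - j))) :=
        s_step (i := i + 3) (by omega) (by omega) (by omega) (by omega)
      rw [hy]
      have h5 : 2 * cen (i + 3) - (2 * cen (i + 4) - (2 * cen (i + 3) - j)) =
          2 * cen (i + 1) - j := by omega
      rw [h5, ih (i + 1) (by omega) j (by omega)]
      ring

end Run7.h737.BA
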